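import Pool.Agent.L0h18.HZ.Defs

set_option autoImplicit false

/-!
# HZ/EXP: integral vectors on rationally exposed rays

If `x = e + ε p = T y` with `y = ∑ c s • s` then `ξ y ≤ M q(T y) = M ε q(p)` for an integral functional
`ξ` with `‖z‖ ≤ ξ z` on the closed cone, while `ξ y ≥ ξ (T⁻¹ e) ≥ 1`.
-/

namespace Pool.Agent.L0h71.HZ

open Pool.Agent.Y167 (cone)
open Pool.Agent.N165.KM (IntL exists_int_functional mem_IntL)
open Pool.Agent.L0h18.CO (IsOpenCone)
open Pool.Agent.L0h18.HZ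
open Topology

theorem exp : S_EXP := by
  classical
  intro ρ P hP hne hint 𝒢 hTint hTcl E hPE hEC hEs S hS hE e he heC q hq hqe hray
  obtain ⟨p, hp⟩ := hne
  have hadd : ∀ x ∈ closure P, ∀ y ∈ closure P, x + y ∈ closure P := fun x hx y hy =>
    map_mem_closure₂ continuous_add hx hy hP.add
  have h0 : (0 : Fin ρ → ℝ) ∈ closure P := by
    have h1 : Filter.Tendsto (fun t : ℝ => t • p) (𝓝[>] (0 : ℝ)) (𝓝 ((0 : ℝ) • p)) :=
      ((continuous_id.smul continuous_const).tendsto (0 : ℝ)).mono_left nhdsWithin_le_nhds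
    rw [zero_smul] at h1
    refine mem_closure_of_tendsto h1 ?_
    filter_upwards [self_mem_nhdsWithin] with t ht
    exact hP.smul t ht p hp
  have hsm : ∀ t : ℝ, 0 ≤ t → ∀ x ∈ closure P, t • x ∈ closure P := by
    intro t ht x hx
    rcases ht.eq_or_lt with rfl | ht
    · rw [zero_smul]
      exact h0
    · exact map_mem_closure (continuous_const_smul t) hx (fun y hy => hP.smul t ht y hy)
  have hCP : ∀ x ∈ closure P, ∀ y ∈ P, x + y ∈ P := by
    intro x hx y hy
    have h1 : x + y ∈ interior (closure P) := by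
      apply mem_interior.2
      refine ⟨(fun z => x + z) '' P, ?_, ?_, ⟨y, hy, rfl⟩⟩
      · rintro _ ⟨z, hz, rfl⟩
        exact hadd x hx z (subset_closure hz)
      · exact (Homeomorph.addLeft x).isOpenMap _ hP.isOpen
    rwa [hint] at h1
  by_cases he0 : e = 0
  · rw [he0]
    have := hEs 0 le_rfl p (hPE hp)
    rwa [zero_smul] at this
  by_contra hneE
  obtain ⟨ξ, hξ1, hξ2⟩ := exists_int_functional isClosed_closure hadd hsm hP.pointed
  let Q : (Fin ρ → ℝ) →ₗ[ℝ] ℝ := ∑ i, (q i : ℝ) • LinearMap.proj i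
  have hQ : ∀ x, Q x = ∑ i, (q i : ℝ) * x i := by
    intro x
    simp [Q]
  have key : ∀ T ∈ 𝒢, ∀ s ∈ S, s ≠ 0 → 1 ≤ Q (T s) := by
    intro T hT s hs hs0
    have h1 : s ∈ cone S := by
      refine ⟨fun a => if a = s then 1 else 0, fun a => by beta_reduce; split_ifs <;> norm_num, ?_⟩
      simp only [ite_smul, one_smul, zero_smul, Finset.sum_ite_eq', if_pos hs]
    have h2 : T s ∈ E := by
      rw [hE]
      exact Set.mem_iUnion₂.2 ⟨T, hT, ⟨s, h1, rfl⟩⟩
    have h3 := hEC h2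
    have h4 := (hTint T hT s (hS s hs)).1
    have h5 : 0 ≤ Q (T s) := by
      rw [hQ]
      exact hq _ h3
    have h6 : Q (T s) ≠ 0 := by
      intro h6
      rw [hQ] at h6
      obtain ⟨t, ht, h7⟩ := hray _ h3 h6
      rcases ht.eq_or_lt with rfl | ht
      · rw [zero_smul] at h7
        exact hs0 (T.map_eq_zero_iff.1 h7)
      · apply hneE
        have h8 := hEs t⁻¹ (inv_nonneg.2 ht.le) _ h2
        rwa [h7, inv_smul_smul₀ ht.ne'] at h8
    choose m hm using (mem_IntL.1 h4)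
    have h7 : Q (T s) = ((∑ i, q i * m i : ℤ) : ℝ) := by
      rw [hQ]
      push_cast
      exact Finset.sum_congr rfl fun i _ => by rw [hm]
    have h8 : (0 : ℝ) < Q (T s) := lt_of_le_of_ne h5 h6.symm
    rw [h7] at h8 ⊢
    have h9 : 0 < ∑ i, q i * m i := by exact_mod_cast h8
    exact_mod_cast h9
  set M : ℝ := ∑ s ∈ S, |ξ s| with hM
  have hM0 : 0 ≤ M := Finset.sum_nonneg fun s _ => abs_nonneg _
  have hMs : ∀ s ∈ S, ξ s ≤ M := fun s hs => (le_abs_self _).trans
    (Finset.single_le_sum (f := fun s => |ξ s|) (fun s _ => abs_nonneg _) hs)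
  have hkey : ∀ T ∈ 𝒢, ∀ s ∈ S, ξ s ≤ M * Q (T s) := by
    intro T hT s hs
    by_cases hs0 : s = 0
    · rw [hs0, map_zero, map_zero, map_zero, mul_zero]
    · calc ξ s ≤ M * 1 := by rw [mul_one]; exact hMs s hs
        _ ≤ M * Q (T s) := mul_le_mul_of_nonneg_left (key T hT s hs hs0) hM0
  have hQp : 0 ≤ Q p := by
    rw [hQ]
    exact hq _ (subset_closure hp)
  have hMQ : 0 ≤ M * Q p := mul_nonneg hM0 hQp
  have hQe : Q e = 0 := by rw [hQ]; exact hqe
  set ε : ℝ := 1 / (M * Q p + 1) with hε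
  have hε0 : 0 < ε := by positivity
  have hεM : ε * (M * Q p) < 1 := by
    rw [hε, one_div, inv_mul_lt_iff₀ (by linarith)]
    linarith
  have hx : e + ε • p ∈ P := hCP e heC _ (hP.smul ε hε0 p hp)
  have hxE := hPE hx
  rw [hE] at hxE
  obtain ⟨T, hT, y, ⟨c, hc, hy⟩, hTy⟩ := Set.mem_iUnion₂.1 hxE
  have h1 : ξ y ≤ M * Q (T y) := by
    rw [hy, map_sum, map_sum, map_sum, Finset.mul_sum]
    refine Finset.sum_le_sum fun a ha => ?_
    rw [map_smul, map_smul, map_smul, smul_eq_mul, smul_eq_mul]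
    calc c a * ξ a ≤ c a * (M * Q (T a)) := mul_le_mul_of_nonneg_left (hkey T hT a ha) (hc a)
      _ = M * (c a * Q (T a)) := by ring
  have h2 : M * Q (T y) < 1 := by
    rw [hTy, map_add, map_smul, hQe, smul_eq_mul]
    calc M * (0 + ε * Q p) = ε * (M * Q p) := by ring
      _ < 1 := hεM
  have h3 : y = T.symm e + ε • T.symm p := by
    rw [← map_smul, ← map_add, ← hTy, T.symm_apply_apply]
  have h4 : 0 ≤ ξ (T.symm p) := (norm_nonneg _).trans
    (hξ2 _ (hTcl T hT p (subset_closure hp)).2)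
  have h5 : 1 ≤ ξ (T.symm e) := by
    obtain ⟨m, hm⟩ := hξ1 _ (hTint T hT e he).2
    have h6 := hξ2 _ (hTcl T hT e heC).2
    have h7 : 0 < ‖T.symm e‖ := by
      rw [norm_pos_iff]
      intro h
      exact he0 (T.symm.map_eq_zero_iff.1 h)
    rw [hm] at h6 ⊢
    have h8 : (0 : ℝ) < m := lt_of_lt_of_le h7 h6
    have h9 : 0 < m := by exact_mod_cast h8
    exact_mod_cast h9
  have h6 : 1 ≤ ξ y := by
    rw [h3, map_add, map_smul, smul_eq_mul]
    nlinarith [mul_nonneg hε0.le h4]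
  linarith

end Pool.Agent.L0h71.HZ
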